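import Pool.Agent.TH216.HD

set_option autoImplicit false

/-! Nondegenerate polynomials `f = ∑_j c_j x ^ (v j)` (all the exponents of `f`), with a set `V` of
exponents which contains the vertices of the Newton polyhedron: definitions. -/

namespace Pool.Agent.TH216.HD

variable {r n : ℕ}

/-- `v j` is on the face of the convex hull of the `v j` where the linear form `w` is minimal. -/
def MinAt (v : Fin r → Fin n → ℕ) (w : Fin n → ℝ) (j : Fin r) : Prop :=
  ∀ j', ∑ i, w i * (v j i : ℝ) ≤ ∑ i, w i * (v j' i : ℝ)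

open Classical in
/-- The polynomial `f = ∑_j a_j x ^ (v j)` is nondegenerate: for every face of the convex hull of
the `v j`, the face polynomial of `f` and its derivatives `x_i ∂_i` have no common zero in
`(ℂ \ 0) ^ n`. -/
def Nondegenerate (v : Fin r → Fin n → ℕ) (a : Fin r → ℂ) : Prop :=
  ∀ (w : Fin n → ℝ) (z : Fin n → ℂ), (∀ i, z i ≠ 0) →
    ¬ ((∑ j, if MinAt v w j then a j * ∏ i, z i ^ v j i else 0) = 0 ∧
      ∀ i, (∑ j, if MinAt v w j then a j * (v j i : ℂ) * ∏ i, z i ^ v j i else 0) = 0)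

/-- All the `v j` are in the Newton polyhedron `conv {v j, j ∈ V} + ℝ_{≥ 0} ^ n`. -/
def Spans (v : Fin r → Fin n → ℕ) (V : Finset (Fin r)) : Prop :=
  ∀ j, ∃ l : Fin r → ℝ, (∀ k, 0 ≤ l k) ∧ (∀ k, k ∉ V → l k = 0) ∧ ∑ k, l k = 1 ∧
    ∀ i, ∑ k, l k * (v k i : ℝ) ≤ (v j i : ℝ)

/-- `v j` is in the convex hull of the `v k`, `k ∈ V`. -/
def HullV (v : Fin r → Fin n → ℕ) (V : Finset (Fin r)) (j : Fin r) : Prop :=
  ∃ l : Fin r → ℝ, (∀ k, 0 ≤ l k) ∧ (∀ k, k ∉ V → l k = 0) ∧ ∑ k, l k = 1 ∧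
    ∀ i, ∑ k, l k * (v k i : ℝ) = (v j i : ℝ)

/-- The facet of `a` is a simplex: the vectors `(v j i)_{a i ≠ 0}`, for the `j ∈ V` with `v j` on the
facet, are linearly independent, and all the `v j` on the facet are in the convex hull of the
`v k`, `k ∈ V`. -/
def SimpV (v : Fin r → Fin n → ℕ) (V : Finset (Fin r)) (a : Fin n → ℕ) : Prop :=
  (∀ w : Fin r → ℚ, (∀ j, ¬ (j ∈ V ∧ OnFace v a j) → w j = 0) →
    (∀ i, a i ≠ 0 → ∑ j, w j * (v j i : ℚ) = 0) → ∀ j, w j = 0) ∧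
  ∀ j, OnFace v a j → HullV v V j

/-- The facet of `a` is B1 in the direction `i`: `a i ≠ 0`, and exactly one of the monomials `x ^ (v j)`
on the facet is divisible by `x_i`, and it is not divisible by `x_i ^ 2`. -/
def B1V (v : Fin r → Fin n → ℕ) (i : Fin n) (a : Fin n → ℕ) : Prop :=
  a i ≠ 0 ∧ ∃ j0, OnFace v a j0 ∧ v j0 i = 1 ∧ ∀ j, OnFace v a j → j ≠ j0 → v j i = 0

/-- At every `v j1`, `j1 ∈ V`, the facets with candidate pole `-σ` through `v j1` are simplices or B1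
in a common direction `i`, which may depend on `j1`. -/
def LocV (v : Fin r → Fin n → ℕ) (V : Finset (Fin r)) (σ : ℚ) : Prop :=
  ∀ j1 ∈ V, ∃ i, ∀ a : Fin n → ℕ, IsRay v a → 0 < ordA v a → OnFace v a j1 → lev v a = σ →
    SimpV v V a ∨ B1V v i a

/-- Every candidate pole `-|a| / N_a` is an integer, or agrees modulo integers with the candidate
pole of a facet which contains a simplex which is not B1, or satisfies `LocV`. -/
def HypV (loc : Prop) (v : Fin r → Fin n → ℕ) (V : Finset (Fin r)) : Prop :=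
  ∀ a : Fin n → ℕ, IsRay v a → 0 < ordA v a → ordA v a ∣ ∑ i, a i ∨
    (∃ a' : Fin n → ℕ, 0 < ordA v a' ∧ NonB1 v loc a' ∧ ∃ z : ℤ, lev v a = lev v a' + z) ∨
    LocV v V (lev v a)

end Pool.Agent.TH216.HD
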