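import Pool.Agent.TH216.HDL

set_option autoImplicit false

/-! Ideals `(f_1, ..., f_r)`, `f_i = ∑_{π j = i} c_j x ^ (m j) + h_i`: conditions on the facets of the
Newton polyhedron of `∑ y_i f_i` in terms of the exponents `v j = (m_j, e_{π j})` only: definitions.
The variables are `x_1, …, x_n, y_1, …, y_r`. -/

namespace Pool.Agent.TH216.HDIL

open Pool.Agent.TH216.HD (OnFace IsRay ordA lev NonB1)
open Pool.Agent.TH216.HDL (SimpL B1L)

variable {ℓ r n : ℕ}

/-- The facet of `a` is B1 in a direction `y_i`: exactly one of the `v j` on the facet contains `y_i`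
(a pyramid with an apex `y_i x ^ (m j)`). -/
def YApexL (v : Fin ℓ → Fin (n + r) → ℕ) (a : Fin (n + r) → ℕ) : Prop :=
  ∃ i : Fin r, B1L v (Fin.natAdd n i) a

/-- At every `v j1` the facets with candidate pole `-σ` through `v j1` are simplices or B1 in a
common direction `i` (a variable `x_i` or `y_i`, which may depend on `j1`), or they are simplices or
B1 in some directions `y_i`. -/
def LocIL (v : Fin ℓ → Fin (n + r) → ℕ) (σ : ℚ) : Prop :=
  ∀ j1 : Fin ℓ, (∃ i, ∀ a : Fin (n + r) → ℕ, IsRay v a → 0 < ordA v a → OnFace v a j1 →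
      lev v a = σ → SimpL v a ∨ B1L v i a) ∨
    ∀ a : Fin (n + r) → ℕ, IsRay v a → 0 < ordA v a → OnFace v a j1 →
      lev v a = σ → SimpL v a ∨ YApexL v a

/-- Every candidate pole `-|a| / N_a` of a facet which is not B1 in a direction `y_i` is shared with
a facet which contains a simplex which is not B1, or satisfies `LocIL`. -/
def HypIL (v : Fin ℓ → Fin (n + r) → ℕ) : Prop :=
  ∀ a : Fin (n + r) → ℕ, IsRay v a → 0 < ordA v a → YApexL v a ∨
    (∃ a' : Fin (n + r) → ℕ, 0 < ordA v a' ∧ NonB1 v True a' ∧ lev v a = lev v a') ∨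
    LocIL v (lev v a)

end Pool.Agent.TH216.HDIL
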