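import Pool.Agent.TH216.HD
import Pool.Agent.W749.JI.Stm

set_option autoImplicit false

/-! Ideals `(f_1, ..., f_r)`, `f_i = ∑_{π j = i} c_j x ^ (m j) + h_i`: definitions. -/

namespace Pool.Agent.TH216.HDI

open MvPolynomial
open Pool.Agent.W749.JI (cay)
open Pool.Agent.TH216.HD

variable {ℓ r n : ℕ}

/-- The polynomials `f_i = ∑_{π j = i} c_j x ^ (m j) + h_i` over the field `k`. -/
noncomputable def gens {F k : Type} [Field F] [Field k] [Algebra F k] (π : Fin ℓ → Fin r)
    (m : Fin ℓ → Fin n → ℕ) (c : Fin ℓ → k) (h : Fin r → MvPolynomial (Fin n) F) (i : Fin r) :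
    MvPolynomial (Fin n) k :=
  (∑ j ∈ Finset.univ.filter (fun j => π j = i), C (c j) * ∏ x, X x ^ m j x) +
    MvPolynomial.map (algebraMap F k) (h i)

/-- The exponents of `h_i` are in the Newton polyhedron `conv {m j, π j = i} + ℝ_{≥ 0} ^ n`. -/
def InPolyI {F : Type} [Field F] (π : Fin ℓ → Fin r) (m : Fin ℓ → Fin n → ℕ)
    (h : Fin r → MvPolynomial (Fin n) F) : Prop :=
  ∀ i, ∀ w ∈ (h i).support, ∃ l : Fin ℓ → ℝ, (∀ j, 0 ≤ l j) ∧ (∀ j, π j ≠ i → l j = 0) ∧
    ∑ j, l j = 1 ∧ ∀ x, ∑ j, l j * (m j x : ℝ) ≤ (w x : ℝ)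

/-- The polynomial `∑_i y_i h_i`; the variables are `x_1, …, x_n, y_1, …, y_r`. -/
noncomputable def ysum {F : Type} [Field F] (h : Fin r → MvPolynomial (Fin n) F) :
    MvPolynomial (Fin (n + r)) F :=
  ∑ i, X (Fin.natAdd n i) * rename (Fin.castAdd r) (h i)

/-- The facet of `a` is B1 in a direction `y_i`: exactly one of its monomials is divisible by `y_i`
(a pyramid with an apex `y_i x ^ (m j)`). -/
def YApex {F : Type} [Field F] (v : Fin ℓ → Fin (n + r) → ℕ) (h : MvPolynomial (Fin (n + r)) F)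
    (a : Fin (n + r) → ℕ) : Prop :=
  ∃ i : Fin r, B1Dir v h (Fin.natAdd n i) a

/-- At every `v j1` the facets with candidate pole `-σ` through `v j1` are simplices or B1 in a
common direction `i` (a variable `x_i` or `y_i`, which may depend on `j1`), or they are simplices or
B1 in some directions `y_i`. -/
def LocI {F : Type} [Field F] (v : Fin ℓ → Fin (n + r) → ℕ) (h : MvPolynomial (Fin (n + r)) F)
    (σ : ℚ) : Prop :=
  ∀ j1 : Fin ℓ, (∃ i, ∀ a : Fin (n + r) → ℕ, IsRay v a → 0 < ordA v a → OnFace v a j1 →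
      lev v a = σ → Simp v h a ∨ B1Dir v h i a) ∨
    ∀ a : Fin (n + r) → ℕ, IsRay v a → 0 < ordA v a → OnFace v a j1 →
      lev v a = σ → Simp v h a ∨ YApex v h a

/-- Every candidate pole `-|a| / N_a` of a facet which is not B1 in a direction `y_i` is shared with
a facet which contains a simplex which is not B1, or satisfies `LocI`. -/
def HypI {F : Type} [Field F] (v : Fin ℓ → Fin (n + r) → ℕ) (h : MvPolynomial (Fin (n + r)) F) :
    Prop :=
  ∀ a : Fin (n + r) → ℕ, IsRay v a → 0 < ordA v a → YApex v h a ∨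
    (∃ a' : Fin (n + r) → ℕ, 0 < ordA v a' ∧ NonB1 v True a' ∧ lev v a = lev v a') ∨
    LocI v h (lev v a)

end Pool.Agent.TH216.HDI
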