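import Pool.Agent.TH216.HDN

set_option autoImplicit false

/-! Nondegenerate polynomials and ideals at the origin: conditions on the facets of the Newton
polyhedron in terms of the exponents `v j`, `j ∈ V`, only; all the other exponents are in the Newton
polyhedron of these ones: definitions. -/

namespace Pool.Agent.TH216.HDNL

open Pool.Agent.TH216.HD

section
variable {r n : ℕ}

/-- The facet of `a` is a simplex: the vectors `(v j i)_{a i ≠ 0}`, for the `j ∈ V` with `v j` on the
facet, are linearly independent. -/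
def SimpVL (v : Fin r → Fin n → ℕ) (V : Finset (Fin r)) (a : Fin n → ℕ) : Prop :=
  ∀ w : Fin r → ℚ, (∀ j, ¬ (j ∈ V ∧ OnFace v a j) → w j = 0) →
    (∀ i, a i ≠ 0 → ∑ j, w j * (v j i : ℚ) = 0) → ∀ j, w j = 0

/-- The facet of `a` is B1 in the direction `i`: `a i ≠ 0`, and exactly one of the `x ^ (v j)`,
`j ∈ V`, on the facet is divisible by `x_i`, and it is not divisible by `x_i ^ 2`. -/
def B1VL (v : Fin r → Fin n → ℕ) (V : Finset (Fin r)) (i : Fin n) (a : Fin n → ℕ) : Prop :=
  a i ≠ 0 ∧ ∃ j0 ∈ V, OnFace v a j0 ∧ v j0 i = 1 ∧ ∀ j ∈ V, OnFace v a j → j ≠ j0 → v j i = 0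

/-- At every `v j1`, `j1 ∈ V`, the facets with candidate pole `-σ` through `v j1` are simplices or B1
in a common direction `i`, which may depend on `j1`. -/
def LocVL (v : Fin r → Fin n → ℕ) (V : Finset (Fin r)) (σ : ℚ) : Prop :=
  ∀ j1 ∈ V, ∃ i, ∀ a : Fin n → ℕ, IsRay v a → 0 < ordA v a → OnFace v a j1 → lev v a = σ →
    SimpVL v V a ∨ B1VL v V i a

/-- Every candidate pole `-|a| / N_a` is an integer, or agrees modulo integers with the candidate
pole of a facet which contains a simplex which is not B1, or satisfies `LocVL`. -/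
def HypVL (v : Fin r → Fin n → ℕ) (V : Finset (Fin r)) : Prop :=
  ∀ a : Fin n → ℕ, IsRay v a → 0 < ordA v a → ordA v a ∣ ∑ i, a i ∨
    (∃ a' : Fin n → ℕ, 0 < ordA v a' ∧ NonB1 v True a' ∧ ∃ z : ℤ, lev v a = lev v a' + z) ∨
    LocVL v V (lev v a)

end

section
variable {ℓ r n : ℕ}

/-- The facet of `a` is B1 in a direction `y_i`: exactly one of its `v j`, `j ∈ V`, contains `y_i`
(a pyramid with an apex `y_i x ^ (m j)`). -/
def YApexVL (v : Fin ℓ → Fin (n + r) → ℕ) (V : Finset (Fin ℓ)) (a : Fin (n + r) → ℕ) : Prop :=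
  ∃ i : Fin r, B1VL v V (Fin.natAdd n i) a

/-- At every `v j1`, `j1 ∈ V`, the facets with candidate pole `-σ` through `v j1` are simplices or
B1 in a common direction `i` (a variable `x_i` or `y_i`, which may depend on `j1`), or they are
simplices or B1 in some directions `y_i`. -/
def LocVIL (v : Fin ℓ → Fin (n + r) → ℕ) (V : Finset (Fin ℓ)) (σ : ℚ) : Prop :=
  ∀ j1 ∈ V, (∃ i, ∀ a : Fin (n + r) → ℕ, IsRay v a → 0 < ordA v a → OnFace v a j1 →
      lev v a = σ → SimpVL v V a ∨ B1VL v V i a) ∨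
    ∀ a : Fin (n + r) → ℕ, IsRay v a → 0 < ordA v a → OnFace v a j1 →
      lev v a = σ → SimpVL v V a ∨ YApexVL v V a

/-- Every candidate pole `-|a| / N_a` of a facet which is not B1 in a direction `y_i` is an integer,
or agrees modulo integers with the candidate pole of a facet which contains a simplex which is not
B1, or satisfies `LocVIL`. -/
def HypVIL (v : Fin ℓ → Fin (n + r) → ℕ) (V : Finset (Fin ℓ)) : Prop :=
  ∀ a : Fin (n + r) → ℕ, IsRay v a → 0 < ordA v a → YApexVL v V a ∨ ordA v a ∣ ∑ i, a i ∨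
    (∃ a' : Fin (n + r) → ℕ, 0 < ordA v a' ∧ NonB1 v True a' ∧ ∃ z : ℤ,
      lev v a = lev v a' + z) ∨
    LocVIL v V (lev v a)

end

end Pool.Agent.TH216.HDNL
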