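import Pool.Agent.TH216.HDN
import Pool.Agent.W423.NI.Defs

set_option autoImplicit false

/-! Nondegenerate ideals: the conditions on the facets of the Newton polyhedron of `∑ y_i f_i`. -/

namespace Pool.Agent.TH216.HDI

open Pool.Agent.TH216.HD

variable {ℓ r n : ℕ}

/-- The facet of `a` is B1 in a direction `y_i`: exactly one of its monomials is divisible by `y_i`
(a pyramid with an apex `y_i x ^ (m j)`). -/
def YApexV (v : Fin ℓ → Fin (n + r) → ℕ) (a : Fin (n + r) → ℕ) : Prop :=
  ∃ i : Fin r, B1V v (Fin.natAdd n i) a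

/-- At every `v j1`, `j1 ∈ V`, the facets with candidate pole `-σ` through `v j1` are simplices or
B1 in a common direction `i` (a variable `x_i` or `y_i`, which may depend on `j1`), or they are
simplices or B1 in some directions `y_i`. -/
def LocVI (v : Fin ℓ → Fin (n + r) → ℕ) (V : Finset (Fin ℓ)) (σ : ℚ) : Prop :=
  ∀ j1 ∈ V, (∃ i, ∀ a : Fin (n + r) → ℕ, IsRay v a → 0 < ordA v a → OnFace v a j1 →
      lev v a = σ → SimpV v V a ∨ B1V v i a) ∨
    ∀ a : Fin (n + r) → ℕ, IsRay v a → 0 < ordA v a → OnFace v a j1 →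
      lev v a = σ → SimpV v V a ∨ YApexV v a

/-- Every candidate pole `-|a| / N_a` of a facet which is not B1 in a direction `y_i` is an integer,
or agrees modulo integers with the candidate pole of a facet which contains a simplex which is not
B1, or satisfies `LocVI`. -/
def HypVI (v : Fin ℓ → Fin (n + r) → ℕ) (V : Finset (Fin ℓ)) : Prop :=
  ∀ a : Fin (n + r) → ℕ, IsRay v a → 0 < ordA v a → YApexV v a ∨ ordA v a ∣ ∑ i, a i ∨
    (∃ a' : Fin (n + r) → ℕ, 0 < ordA v a' ∧ NonB1 v True a' ∧ ∃ z : ℤ,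
      lev v a = lev v a' + z) ∨
    LocVI v V (lev v a)

end Pool.Agent.TH216.HDI
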