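import Pool.Agent.TH216.HD

set_option autoImplicit false

/-! Local zeta functions: conditions on the facets of the Newton polyhedron in terms of the
exponents `v j` only: definitions. -/

namespace Pool.Agent.TH216.HDL

open Pool.Agent.TH216.HD (OnFace IsRay ordA lev NonB1)

variable {r n : ℕ}

/-- The `v j` are the vertices of their Newton polyhedron: no `v j` is in the Newton polyhedron
`conv {v k, k ≠ j} + ℝ_{≥ 0} ^ n` of the others. -/
def Vertices (v : Fin r → Fin n → ℕ) : Prop :=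
  ∀ j, ¬ ∃ l : Fin r → ℝ, (∀ k, 0 ≤ l k) ∧ l j = 0 ∧ ∑ k, l k = 1 ∧
    ∀ i, ∑ k, l k * (v k i : ℝ) ≤ (v j i : ℝ)

/-- The facet of `a` is a simplex: the vectors `(v j i)_{a i ≠ 0}`, for the `v j` on the facet, are
linearly independent. -/
def SimpL (v : Fin r → Fin n → ℕ) (a : Fin n → ℕ) : Prop :=
  ∀ w : Fin r → ℚ, (∀ j, ¬ OnFace v a j → w j = 0) →
    (∀ i, a i ≠ 0 → ∑ j, w j * (v j i : ℚ) = 0) → ∀ j, w j = 0

/-- The facet of `a` is B1 in the direction `i`: `a i ≠ 0`, and exactly one of the `x ^ (v j)` on the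
facet is divisible by `x_i`, and it is not divisible by `x_i ^ 2`. -/
def B1L (v : Fin r → Fin n → ℕ) (i : Fin n) (a : Fin n → ℕ) : Prop :=
  a i ≠ 0 ∧ ∃ j0, OnFace v a j0 ∧ v j0 i = 1 ∧ ∀ j, OnFace v a j → j ≠ j0 → v j i = 0

/-- At every `v j1` the facets with candidate pole `-σ` through `v j1` are simplices or B1 in a common
direction `i`, which may depend on `j1`. -/
def LocL (v : Fin r → Fin n → ℕ) (σ : ℚ) : Prop :=
  ∀ j1 : Fin r, ∃ i, ∀ a : Fin n → ℕ, IsRay v a → 0 < ordA v a → OnFace v a j1 → lev v a = σ →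
    SimpL v a ∨ B1L v i a

/-- Every candidate pole `-|a| / N_a` is `-1`, or comes from a facet which contains a simplex which is
not B1, or satisfies `LocL`. -/
def HypL (v : Fin r → Fin n → ℕ) : Prop :=
  ∀ a : Fin n → ℕ, IsRay v a → 0 < ordA v a → ∑ i, a i = ordA v a ∨
    (∃ a' : Fin n → ℕ, 0 < ordA v a' ∧ NonB1 v True a' ∧ lev v a = lev v a') ∨
    LocL v (lev v a)

end Pool.Agent.TH216.HDL
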