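import Pool.Agent.TH216.HDL

set_option autoImplicit false

/-! Conditions on the faces of the Newton polyhedron of the `v j`: definitions. -/

namespace Pool.Agent.TH216.HDF

open Pool.Agent.TH216.HD (OnFace IsRay ordA lev NonB1)
open Pool.Agent.TH216.HDL

variable {r n : ℕ}

/-- The vectors `(v j i)_{i ∈ A}`, `j ∈ τ`, are linearly dependent. -/
def Dep (v : Fin r → Fin n → ℕ) (A : Finset (Fin n)) (τ : Finset (Fin r)) : Prop :=
  ∃ w : Fin r → ℚ, (∃ j, w j ≠ 0) ∧ (∀ j, j ∉ τ → w j = 0) ∧ ∀ i ∈ A, ∑ j, w j * (v j i : ℚ) = 0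

/-- `a` is a ray with `N_a > 0` and `a i = 0` for all `i ∉ A`, whose facet contains the `v j`,
`j ∈ τ`. -/
def RayAt (v : Fin r → Fin n → ℕ) (A : Finset (Fin n)) (τ : Finset (Fin r)) (a : Fin n → ℕ) :
    Prop :=
  IsRay v a ∧ 0 < ordA v a ∧ (∀ i, i ∉ A → a i = 0) ∧ ∀ j ∈ τ, OnFace v a j

/-- For all `A` and `τ`: if the facets of the rays `a` with `a i = 0` for all `i ∉ A` which contain the
`v j`, `j ∈ τ`, all have the candidate pole `-σ`, if every variable `x_i`, `i ∈ A`, occurs in some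
`x ^ (v j)`, `j ∈ τ`, and if the vectors `(v j i)_{i ∈ A}`, `j ∈ τ`, are linearly dependent, then these
facets are B1 in a common direction. -/
def LocF (v : Fin r → Fin n → ℕ) (σ : ℚ) : Prop :=
  ∀ (A : Finset (Fin n)) (τ : Finset (Fin r)), Dep v A τ → (∀ i ∈ A, ∃ j ∈ τ, v j i ≠ 0) →
    (∃ a, RayAt v A τ a) → (∀ a, RayAt v A τ a → lev v a = σ) → ∃ i, ∀ a, RayAt v A τ a → B1L v i a

/-- The conditions on the Newton polyhedron. -/
def HypF (v : Fin r → Fin n → ℕ) : Prop :=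
  (Vertices v ∧ n ≤ 3) ∨
  (Vertices v ∧ n = 4 ∧ ∀ a : Fin n → ℕ, IsRay v a → 0 < ordA v a → ∑ i, a i = ordA v a ∨
    (∃ a' : Fin n → ℕ, 0 < ordA v a' ∧ NonB1 v True a' ∧ lev v a = lev v a') ∨
    SimpL v a ∨ ∃ i, B1L v i a) ∨
  ∀ a : Fin n → ℕ, IsRay v a → 0 < ordA v a → ∑ i, a i = ordA v a ∨
    (∃ a' : Fin n → ℕ, 0 < ordA v a' ∧ NonB1 v True a' ∧ lev v a = lev v a') ∨
    LocF v (lev v a)

end Pool.Agent.TH216.HDF
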