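import Mathlib

set_option autoImplicit false

/-! Conditions on the facets of the Newton polyhedron of `f = ∑_j c_j x ^ (v j) + h`: definitions. -/

namespace Pool.Agent.TH216.HD

variable {r n : ℕ}

/-- The polynomial `f = ∑_j c_j x ^ (v j) + h` over the field `k`. -/
noncomputable def poly {F k : Type} [Field F] [Field k] [Algebra F k] (v : Fin r → Fin n → ℕ)
    (c : Fin r → k) (h : MvPolynomial (Fin n) F) : MvPolynomial (Fin n) k :=
  (∑ j, MvPolynomial.C (c j) * ∏ i, MvPolynomial.X i ^ v j i) +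
    MvPolynomial.map (algebraMap F k) h

/-- The exponent `w` is in the Newton polyhedron `conv {v j} + ℝ_{≥ 0} ^ n`. -/
def InPoly (v : Fin r → Fin n → ℕ) (w : Fin n →₀ ℕ) : Prop :=
  ∃ l : Fin r → ℝ, (∀ j, 0 ≤ l j) ∧ ∑ j, l j = 1 ∧ ∀ i, ∑ j, l j * (v j i : ℝ) ≤ (w i : ℝ)

/-- The exponent `w` is in the convex hull of the `v j`. -/
def InHull (v : Fin r → Fin n → ℕ) (w : Fin n →₀ ℕ) : Prop :=
  ∃ l : Fin r → ℝ, (∀ j, 0 ≤ l j) ∧ ∑ j, l j = 1 ∧ ∀ i, ∑ j, l j * (v j i : ℝ) = (w i : ℝ)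

/-- `N_a = min_j ⟨a, v j⟩` -/
noncomputable def ordA (v : Fin r → Fin n → ℕ) (a : Fin n → ℕ) : ℕ := ⨅ j, ∑ i, a i * v j i

/-- `v j` is on the face of `a`, the face of the Newton polyhedron where `⟨a, ·⟩` is minimal. -/
def OnFace (v : Fin r → Fin n → ℕ) (a : Fin n → ℕ) (j : Fin r) : Prop :=
  ∑ i, a i * v j i = ordA v a

/-- `a` spans a ray of the normal fan of the Newton polyhedron: the face of `a` is a facet. -/
def IsRay (v : Fin r → Fin n → ℕ) (a : Fin n → ℕ) : Prop :=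
  a ≠ 0 ∧ ∀ u : Fin n → ℚ, (∀ i, a i = 0 → u i = 0) →
    (∀ j j', OnFace v a j → OnFace v a j' → ∑ i, u i * v j i = ∑ i, u i * v j' i) →
    ∃ t : ℚ, ∀ i, u i = t * a i

/-- `σ = |a| / N_a`; the candidate pole of `a` is `-σ`. -/
noncomputable def lev (v : Fin r → Fin n → ℕ) (a : Fin n → ℕ) : ℚ :=
  ((∑ i, a i : ℕ) : ℚ) / ordA v a

/-- The facet of `a` contains a simplex `J` (the vectors `(v j i)_{a i ≠ 0}`, `j ∈ J`, are a basis of
`ℚ ^ {i | a i ≠ 0}`) which is not B1: there is no variable `x_i`, `a i ≠ 0`, which occurs in exactly one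
of the monomials `x ^ (v j)`, `j ∈ J`, and there with exponent `1`. For the local version (`loc`) also,
a condition only if some `a i = 0`: if `v l` is on the face of `a` and agrees with `∑_{j ∈ J} c_j (v j)`
in the coordinates `i` with `a i ≠ 0`, then `∑_j c_j s(v j) ≤ s(v l)`, `s(w) = ∑_{a i = 0} w_i`. -/
def NonB1 (v : Fin r → Fin n → ℕ) (loc : Prop) (a : Fin n → ℕ) : Prop :=
  ∃ J : Finset (Fin r), J.card = (Finset.univ.filter fun i => a i ≠ 0).card ∧
    (∀ j ∈ J, OnFace v a j) ∧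
    LinearIndependent ℚ (fun j : J => (fun i => (v j i : ℚ) : {i // a i ≠ 0} → ℚ)) ∧
    (∀ i, a i ≠ 0 → ¬ ∃ j0 ∈ J, v j0 i = 1 ∧ ∀ j ∈ J, j ≠ j0 → v j i = 0) ∧
    (loc → ∀ l, OnFace v a l → ∀ c : Fin r → ℚ, (∀ j, j ∉ J → c j = 0) →
      (∀ i, a i ≠ 0 → ∑ j, c j * (v j i : ℚ) = (v l i : ℚ)) →
      ∑ j, c j * ∑ i, (if a i = 0 then (v j i : ℚ) else 0) ≤
        ∑ i, (if a i = 0 then (v l i : ℚ) else 0))

/-- The facet of `a` is a simplex: the vectors `(v j i)_{a i ≠ 0}`, for the `v j` on the facet, are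
linearly independent, and the exponents of `h` on the facet are in the convex hull of the `v j`. -/
def Simp {R : Type} [CommRing R] (v : Fin r → Fin n → ℕ) (h : MvPolynomial (Fin n) R)
    (a : Fin n → ℕ) : Prop :=
  (∀ w : Fin r → ℚ, (∀ j, ¬ OnFace v a j → w j = 0) →
    (∀ i, a i ≠ 0 → ∑ j, w j * (v j i : ℚ) = 0) → ∀ j, w j = 0) ∧
  ∀ w ∈ h.support, ∑ x, a x * w x = ordA v a → InHull v w

/-- The facet of `a` is B1 in the direction `i`: `a i ≠ 0`, and exactly one of the monomials of the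
facet (the `x ^ (v j)` and the monomials of `h`) is divisible by `x_i`; this one is some
`x ^ (v j0)` with `v j0 i = 1` (it may also occur in `h`). -/
def B1Dir {R : Type} [CommRing R] (v : Fin r → Fin n → ℕ) (h : MvPolynomial (Fin n) R) (i : Fin n)
    (a : Fin n → ℕ) : Prop :=
  a i ≠ 0 ∧ ∃ j0, OnFace v a j0 ∧ v j0 i = 1 ∧ (∀ j, OnFace v a j → j ≠ j0 → v j i = 0) ∧
    ∀ w ∈ h.support, ∑ x, a x * w x = ordA v a → w i = 0 ∨ ∀ x, w x = v j0 x

/-- At every `v j1` the facets with candidate pole `-σ` through `v j1` are simplices or B1 in a common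
direction `i`, which may depend on `j1`. -/
def LocS {R : Type} [CommRing R] (v : Fin r → Fin n → ℕ) (h : MvPolynomial (Fin n) R)
    (σ : ℚ) : Prop :=
  ∀ j1 : Fin r, ∃ i, ∀ a : Fin n → ℕ, IsRay v a → 0 < ordA v a → OnFace v a j1 → lev v a = σ →
    Simp v h a ∨ B1Dir v h i a

/-- Every candidate pole `-|a| / N_a` is `-1`, or comes from a facet which contains a simplex which is
not B1, or satisfies `LocS`. -/
def Hyp {R : Type} [CommRing R] (loc : Prop) (v : Fin r → Fin n → ℕ) (h : MvPolynomial (Fin n) R) :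
    Prop :=
  ∀ a : Fin n → ℕ, IsRay v a → 0 < ordA v a → ∑ i, a i = ordA v a ∨
    (∃ a' : Fin n → ℕ, 0 < ordA v a' ∧ NonB1 v loc a' ∧ lev v a = lev v a') ∨
    LocS v h (lev v a)

end Pool.Agent.TH216.HD
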